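import Mathlib
import Pool.Agent.N718.DC.Stm2

/-! Part GLUE of project DC (helper718): the local points are replaced by one integral point. -/

set_option autoImplicit false
set_option linter.all false

namespace Pool.Agent.N681.DC

open Finset Pool.Agent.N718.DC

/-- A conic with a point stays one when its coefficients are multiplied by a common factor and squares. -/
theorem sol_tr {K : Type} [Field K] {A B C A' B' C' : K} (t x y z : K) (ht : t ≠ 0) (hx : x ≠ 0)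
    (hy : y ≠ 0) (hz : z ≠ 0) (hA : A' = A * t * x ^ 2) (hB : B' = B * t * y ^ 2)
    (hC : C' = C * t * z ^ 2) (h : Sol A B C) : Sol A' B' C' := by
  obtain ⟨u, v, w, h1, h2⟩ := h
  refine ⟨u / x, v / y, w / z, ?_, ?_⟩
  · rcases h1 with h | h | h
    · exact Or.inl (div_ne_zero h hx)
    · exact Or.inr (Or.inl (div_ne_zero h hy))
    · exact Or.inr (Or.inr (div_ne_zero h hz))
  · rw [hA, hB, hC]
    have e1 : A * t * x ^ 2 * (u / x) ^ 2 = t * (A * u ^ 2) := by field_simp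
    have e2 : B * t * y ^ 2 * (v / y) ^ 2 = t * (B * v ^ 2) := by field_simp
    have e3 : C * t * z ^ 2 * (w / z) ^ 2 = t * (C * w ^ 2) := by field_simp
    rw [e1, e2, e3, ← mul_add, h2]

theorem fm_smul {R : Type} [CommRing R] {e : ℕ} (c : Fin (e + 2) → R) (l x y : R) :
    fm c (l * x) (l * y) = l ^ (e + 1) * fm c x y := by
  unfold fm
  rw [Finset.mul_sum]
  refine Finset.sum_congr rfl fun j _ => ?_
  have hj : (e + 1 - (j : ℕ)) + (j : ℕ) = e + 1 := by have := j.2; omega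
  have : l ^ (e + 1) = l ^ (e + 1 - (j : ℕ)) * l ^ (j : ℕ) := by rw [← pow_add, hj]
  rw [mul_pow, mul_pow, this]; ring

theorem fm_cast {R : Type} [CommRing R] {e : ℕ} (c : Fin (e + 2) → ℤ) (a b : ℤ) :
    fmv c (a : R) (b : R) = ((fm c a b : ℤ) : R) := by
  unfold fmv fm
  push_cast
  rfl

theorem fm_modEq {e : ℕ} (c c' : Fin (e + 2) → ℤ) (a b a' b' m : ℤ) (hc : ∀ j, m ∣ c j - c' j)
    (ha : m ∣ a - a') (hb : m ∣ b - b') : m ∣ fm c a b - fm c' a' b' := by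
  have h1 : ∀ x y : ℤ, m ∣ x - y ↔ y ≡ x [ZMOD m] := fun x y => Int.modEq_iff_dvd.symm
  rw [h1]
  unfold fm
  have hs : ∀ (s : Finset (Fin (e + 2))) (f g : Fin (e + 2) → ℤ), (∀ j ∈ s, f j ≡ g j [ZMOD m]) →
      (∑ j ∈ s, f j) ≡ ∑ j ∈ s, g j [ZMOD m] := by
    intro s f g hfg
    induction s using Finset.induction_on with
    | empty => simp
    | insert i s hi ih =>
      rw [Finset.sum_insert hi, Finset.sum_insert hi]
      exact Int.ModEq.add (hfg _ (Finset.mem_insert_self _ _))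
        (ih fun j hj => hfg j (Finset.mem_insert_of_mem hj))
  refine hs _ _ _ fun j _ => ?_
  exact Int.ModEq.mul (Int.ModEq.mul ((h1 _ _).1 (hc j)) (((h1 _ _).1 ha).pow _))
    (((h1 _ _).1 hb).pow _)

theorem fm_zero {R : Type} [CommRing R] {e : ℕ} (c : Fin (e + 2) → R) : fm c 0 0 = 0 := by
  unfold fm
  refine Finset.sum_eq_zero fun j _ => ?_
  by_cases h : (j : ℕ) = 0
  · have : e + 1 - (j : ℕ) ≠ 0 := by omega
    rw [zero_pow this]; ring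
  · rw [zero_pow h]; ring

variable {r : ℕ} {e : Fin r × Fin 3 → ℕ}

/-- `PS` is transferred when all the values are multiplied by nonzero squares. -/
theorem ps_tr (c c' : (k : Fin r × Fin 3) → Fin (e k + 2) → ℤ) {K : Type} [Field K] (x y x' y' : K)
    (h : PS c x y) (z : Fin r × Fin 3 → K) (hz : ∀ k, z k ≠ 0) (t : Fin r → K) (ht : ∀ i, t i ≠ 0)
    (hv : ∀ k, fmv (c' k) x' y' = fmv (c k) x y * t k.1 * z k ^ 2) : PS c' x' y' := by
  refine ⟨fun k => ?_, fun i => ?_⟩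
  · rw [hv k]
    exact mul_ne_zero (mul_ne_zero (h.1 k) (ht _)) (pow_ne_zero _ (hz k))
  · exact sol_tr (t i) (z (i, 0)) (z (i, 1)) (z (i, 2)) (ht i) (hz _) (hz _) (hz _) (hv _) (hv _)
      (hv _) (h.2 i)

/-- Scaling of the point. -/
theorem ps_smul (he : ∀ i l l', e (i, l) % 2 = e (i, l') % 2)
    (c : (k : Fin r × Fin 3) → Fin (e k + 2) → ℤ) {K : Type} [Field K] (x y l : K) (hl : l ≠ 0)
    (h : PS c x y) : PS c (l * x) (l * y) := by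
  refine ps_tr c c x y _ _ h (fun k => l ^ (e k / 2)) (fun k => pow_ne_zero _ hl)
    (fun i => l ^ (e (i, 0) % 2 + 1)) (fun i => pow_ne_zero _ hl) fun k => ?_
  unfold fmv
  rw [fm_smul]
  have h1 : e k + 1 = (e (k.1, 0) % 2 + 1) + (e k / 2) * 2 := by
    have := he k.1 k.2 0
    have h2 : e (k.1, k.2) = e k := rfl
    rw [h2] at this
    omega
  have h2 : l ^ (e k + 1) = l ^ (e (k.1, 0) % 2 + 1) * (l ^ (e k / 2)) ^ 2 := by
    rw [← pow_mul, ← pow_add, ← h1]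
  rw [h2]; ring

/-- Elements of `ℚ_p` close to `1` are squares. -/
theorem sq_one {p : ℕ} [Fact p.Prime] (u : ℚ_[p]) (hu : ‖u - 1‖ ≤ ((p : ℝ) ^ 3)⁻¹) :
    ∃ z : ℚ_[p], z ≠ 0 ∧ u = z ^ 2 := by
  have hp2 : (2 : ℝ) ≤ p := by exact_mod_cast (Fact.out : p.Prime).two_le
  have h8 : ((p : ℝ) ^ 3)⁻¹ ≤ 1 / 8 := by
    rw [inv_eq_one_div]
    apply one_div_le_one_div_of_le (by norm_num)
    calc (8 : ℝ) = 2 ^ 3 := by norm_num
      _ ≤ (p : ℝ) ^ 3 := pow_le_pow_left₀ (by norm_num) hp2 3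
  have hu1 : ‖u‖ ≤ 1 := by
    have : u = (u - 1) + 1 := by ring
    rw [this]
    refine (Padic.nonarchimedean _ _).trans (max_le (by linarith) ?_)
    rw [norm_one]
  set U : ℤ_[p] := ⟨u, hu1⟩ with hU
  have h2 : ‖(2 : ℤ_[p])‖ ≥ 1 / 2 := by
    have h3 : ‖(2 : ℤ_[p])‖ = ‖((2 : ℤ) : ℚ_[p])‖ := by
      rw [PadicInt.norm_def]; norm_cast
    by_cases hp : p = 2
    · subst hp
      have := Padic.norm_p (p := 2)
      rw [h3]
      push_cast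
      have h4 : ‖((2 : ℕ) : ℚ_[2])‖ = ((2 : ℕ) : ℝ)⁻¹ := this
      push_cast at h4
      rw [h4]; norm_num
    · have : ¬ ((p : ℤ) ∣ 2) := by
        intro hd
        have h5 : p ∣ 2 := by exact_mod_cast hd
        exact hp ((Nat.prime_dvd_prime_iff_eq Fact.out Nat.prime_two).1 h5)
      have h6 : ¬ ‖((2 : ℤ) : ℚ_[p])‖ < 1 := fun hh => this ((Padic.norm_intCast_lt_one_iff (k := 2)).1 hh)
      rw [h3]
      rw [not_lt] at h6
      exact (by norm_num : (1 : ℝ) / 2 ≤ 1).trans h6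
  have key : ‖(Polynomial.X ^ 2 - Polynomial.C U : Polynomial ℤ_[p]).aeval (1 : ℤ_[p])‖ <
      ‖(Polynomial.X ^ 2 - Polynomial.C U : Polynomial ℤ_[p]).derivative.aeval (1 : ℤ_[p])‖ ^ 2 := by
    have e1 : (Polynomial.X ^ 2 - Polynomial.C U : Polynomial ℤ_[p]).aeval (1 : ℤ_[p]) = 1 - U := by
      simp [Polynomial.aeval_def]
    have e2 : (Polynomial.X ^ 2 - Polynomial.C U : Polynomial ℤ_[p]).derivative.aeval (1 : ℤ_[p]) = 2 := by
      simp [Polynomial.aeval_def]; norm_num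
    rw [e1, e2]
    have e3 : ‖(1 : ℤ_[p]) - U‖ = ‖u - 1‖ := by
      rw [PadicInt.norm_def, ← norm_neg]
      congr 1
      push_cast
      rw [hU]
      ring
    rw [e3]
    nlinarith
  obtain ⟨z, hz, -⟩ := hensels_lemma key
  have hz2 : z ^ 2 = U := by
    have : z ^ 2 - U = 0 := by simpa [Polynomial.aeval_def] using hz
    exact sub_eq_zero.1 this
  refine ⟨(z : ℚ_[p]), ?_, ?_⟩
  · intro h0
    have h1 : z = 0 := Subtype.ext h0
    rw [h1] at hz2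
    have h3 : U = 0 := by rw [← hz2]; ring
    have h4 : u = 0 := by
      have := congrArg (fun w : ℤ_[p] => (w : ℚ_[p])) h3
      simpa [hU] using this
    rw [h4] at hu
    have : ‖(0 : ℚ_[p]) - 1‖ = 1 := by simp
    rw [this] at hu
    linarith
  · have := congrArg (fun w : ℤ_[p] => (w : ℚ_[p])) hz2
    simp only [hU, PadicInt.coe_pow] at this
    exact this.symm

theorem norm_int_le {p : ℕ} [Fact p.Prime] (a : ℤ) (n : ℕ) (h : (p : ℤ) ^ n ∣ a) :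
    ‖(a : ℚ_[p])‖ ≤ ((p : ℝ) ^ n)⁻¹ := by
  have := (Padic.norm_int_le_pow_iff_dvd (p := p) a n).2 (by exact_mod_cast h)
  rwa [zpow_neg, zpow_natCast] at this

/-- An integer congruent to `F` modulo a high power of `p` differs from it by a square. -/
theorem sq_close {p : ℕ} [Fact p.Prime] (F F' : ℤ) (k : ℕ) (h1 : ¬ (p : ℤ) ^ (k + 12) ∣ F)
    (h2 : (p : ℤ) ^ (k + 14) ∣ F' - F) : ∃ z : ℚ_[p], z ≠ 0 ∧ (F' : ℚ_[p]) = (F : ℚ_[p]) * z ^ 2 := by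
  have hp0 : (0 : ℝ) < p := by exact_mod_cast (Fact.out : p.Prime).pos
  have hF0 : (F : ℚ_[p]) ≠ 0 := by
    intro h
    have : F = 0 := by exact_mod_cast h
    exact h1 (this ▸ dvd_zero _)
  have hF : ((p : ℝ) ^ (k + 11))⁻¹ ≤ ‖(F : ℚ_[p])‖ := by
    by_contra hlt
    rw [not_le] at hlt
    apply h1
    have h3 : ‖(F : ℚ_[p])‖ ≤ (p : ℝ) ^ (-((k + 12 : ℕ) : ℤ)) := by
      have h4 : ‖(F : ℚ_[p])‖ < (p : ℝ) ^ (-((k + 12 : ℕ) : ℤ) + 1) := by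
        have : (-((k + 12 : ℕ) : ℤ) + 1) = -((k + 11 : ℕ) : ℤ) := by push_cast; ring
        rw [this, zpow_neg, zpow_natCast]; exact hlt
      exact (Padic.norm_le_pow_iff_norm_lt_pow_add_one _ _).2 h4
    exact_mod_cast (Padic.norm_int_le_pow_iff_dvd (p := p) F (k + 12)).1 h3
  have hd : ‖((F' - F : ℤ) : ℚ_[p])‖ ≤ ((p : ℝ) ^ (k + 14))⁻¹ := norm_int_le _ _ h2
  obtain ⟨z, hz, he⟩ := sq_one (p := p) ((F' : ℚ_[p]) / F) (by
    have : (F' : ℚ_[p]) / F - 1 = ((F' - F : ℤ) : ℚ_[p]) / F := by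
      push_cast; field_simp
    rw [this, norm_div]
    have hFp : 0 < ‖(F : ℚ_[p])‖ := norm_pos_iff.2 hF0
    rw [div_le_iff₀ hFp]
    calc ‖((F' - F : ℤ) : ℚ_[p])‖ ≤ ((p : ℝ) ^ (k + 14))⁻¹ := hd
      _ = ((p : ℝ) ^ 3)⁻¹ * ((p : ℝ) ^ (k + 11))⁻¹ := by
        rw [← mul_inv, ← pow_add]; congr 2; ring
      _ ≤ ((p : ℝ) ^ 3)⁻¹ * ‖(F : ℚ_[p])‖ :=
        mul_le_mul_of_nonneg_left hF (by positivity))
  refine ⟨z, hz, ?_⟩
  rw [← he]; field_simp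

/-- Chinese remainder theorem for integers. -/
theorem crt (s : Finset ℕ) (m : ℕ → ℤ) (hm : ∀ p ∈ s, ∀ q ∈ s, p ≠ q → IsCoprime (m p) (m q))
    (f : ℕ → ℤ) : ∃ a : ℤ, ∀ p ∈ s, m p ∣ a - f p := by
  classical
  obtain ⟨a, ha⟩ := Ideal.exists_forall_sub_mem_ideal (R := ℤ) (ι := s)
    (I := fun p => Ideal.span {m p.1}) (fun p q hpq => by
      show IsCoprime (Ideal.span {m p.1}) (Ideal.span {m q.1})
      rw [Ideal.isCoprime_span_singleton_iff]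
      exact hm p.1 p.2 q.1 q.2 (fun h => hpq (Subtype.ext h))) (fun p => f p.1)
  exact ⟨a, fun p hp => Ideal.mem_span_singleton.1 (ha ⟨p, hp⟩)⟩

theorem ps_norm (he : ∀ i l l', e (i, l) % 2 = e (i, l') % 2)
    (c : (k : Fin r × Fin 3) → Fin (e k + 2) → ℤ) {p : ℕ} [Fact p.Prime] (x y : ℚ_[p])
    (h : PS c x y) : ∃ x' y' : ℚ_[p], max ‖x'‖ ‖y'‖ = 1 ∧ PS c x' y' := by
  by_cases h0 : x = 0 ∧ y = 0
  · obtain ⟨rfl, rfl⟩ := h0
    refine ⟨1, 0, by simp, ⟨fun k => ?_, fun i => ?_⟩⟩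
    · exact absurd (fm_zero _) (h.1 k)
    · exact absurd (fm_zero _) (h.1 (i, 0))
  · rcases le_total ‖x‖ ‖y‖ with hxy | hxy
    · have hy : y ≠ 0 := by
        rintro rfl
        apply h0
        refine ⟨?_, rfl⟩
        rw [norm_zero] at hxy
        exact norm_le_zero_iff.1 hxy
      have hy' : 0 < ‖y‖ := norm_pos_iff.2 hy
      refine ⟨y⁻¹ * x, y⁻¹ * y, ?_, ps_smul he c x y _ (inv_ne_zero hy) h⟩
      rw [inv_mul_cancel₀ hy, norm_one, norm_mul, norm_inv]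
      apply max_eq_right
      rw [← div_eq_inv_mul]
      exact (div_le_one hy').2 hxy
    · have hx : x ≠ 0 := by
        rintro rfl
        apply h0
        refine ⟨rfl, ?_⟩
        rw [norm_zero] at hxy
        exact norm_le_zero_iff.1 hxy
      have hx' : 0 < ‖x‖ := norm_pos_iff.2 hx
      refine ⟨x⁻¹ * x, x⁻¹ * y, ?_, ps_smul he c x y _ (inv_ne_zero hx) h⟩
      rw [inv_mul_cancel₀ hx, norm_one, norm_mul, norm_inv]
      apply max_eq_left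
      rw [← div_eq_inv_mul]
      exact (div_le_one hx').2 hxy

open Classical in
theorem glue_ (h : S_PADT) : S_GLUE := by
  intro r e he U S N W n M hM hS hN c hbad hloc X Y hXY
  -- the local integral points
  have h1 : ∀ p : Nat.Primes, (p : ℕ) ≤ W → ∃ b₀ b₁ : ℤ,
      (p ∈ S → ‖X p - (b₀ : ℚ_[(p : ℕ)])‖ ≤ (((p : ℕ) : ℝ) ^ N)⁻¹ ∧
        ‖Y p - (b₁ : ℚ_[(p : ℕ)])‖ ≤ (((p : ℕ) : ℝ) ^ N)⁻¹) ∧
      (∀ k, ¬ (((p : ℕ) : ℤ) ^ (3 * n p + 12) ∣ fm (c k) b₀ b₁)) ∧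
      PS c ((b₀ : ℤ) : ℚ_[(p : ℕ)]) ((b₁ : ℤ) : ℚ_[(p : ℕ)]) := by
    intro p hp
    have h2 : ∃ x y : ℚ_[(p : ℕ)], max ‖x‖ ‖y‖ = 1 ∧ PS c x y ∧ (p ∈ S → x = X p ∧ y = Y p) := by
      by_cases hpS : p ∈ S
      · exact ⟨X p, Y p, (hXY p hpS).1, (hXY p hpS).2, fun _ => ⟨rfl, rfl⟩⟩
      · obtain ⟨x, y, hxy⟩ := hloc.2 p
        obtain ⟨x', y', h3, h4⟩ := ps_norm he c x y hxy
        exact ⟨x', y', h3, h4, fun hh => absurd hh hpS⟩
    obtain ⟨x, y, h3, h4, h5⟩ := h2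
    obtain ⟨b₀, b₁, h6, h7, h8, h9⟩ := h _ e (p : ℕ) N (n p) (hN p) c (hbad p p.2 hp) x y h3 h4.1
    refine ⟨b₀, b₁, fun hpS => ?_, h8, ?_⟩
    · obtain ⟨hx, hy⟩ := h5 hpS
      rw [← hx, ← hy]
      exact ⟨h6, h7⟩
    · choose z hz hz' using h9
      refine ps_tr c c x y _ _ h4 (fun k => (z k)⁻¹) (fun k => inv_ne_zero (hz k)) (fun _ => 1)
        (fun _ => one_ne_zero) fun k => ?_
      rw [fm_cast, hz' k]
      have := hz k
      field_simp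
  have h1' : ∀ p : Nat.Primes, ∃ b : ℤ × ℤ, (p : ℕ) ≤ W →
      (p ∈ S → ‖X p - (b.1 : ℚ_[(p : ℕ)])‖ ≤ (((p : ℕ) : ℝ) ^ N)⁻¹ ∧
        ‖Y p - (b.2 : ℚ_[(p : ℕ)])‖ ≤ (((p : ℕ) : ℝ) ^ N)⁻¹) ∧
      (∀ k, ¬ (((p : ℕ) : ℤ) ^ (3 * n p + 12) ∣ fm (c k) b.1 b.2)) ∧
      PS c ((b.1 : ℤ) : ℚ_[(p : ℕ)]) ((b.2 : ℤ) : ℚ_[(p : ℕ)]) := by
    intro p
    by_cases hp : (p : ℕ) ≤ W
    · obtain ⟨b₀, b₁, hb⟩ := h1 p hp
      exact ⟨(b₀, b₁), fun _ => hb⟩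
    · exact ⟨(0, 0), fun h2 => absurd h2 hp⟩
  choose b' hb' using h1'
  obtain ⟨b, hbb⟩ : ∃ b : ℕ → ℤ × ℤ, ∀ (p : ℕ) (hp : p.Prime), b p = b' ⟨p, hp⟩ :=
    ⟨fun p => if hp : p.Prime then b' ⟨p, hp⟩ else (0, 0), fun p hp => by simp [hp]⟩
  set s : Finset ℕ := (Icc 1 W).filter Nat.Prime with hs
  have hco : ∀ p ∈ s, ∀ q ∈ s, p ≠ q →
      IsCoprime ((p : ℤ) ^ (3 * n p + 14)) ((q : ℤ) ^ (3 * n q + 14)) := by
    intro p hp q hq hpq
    apply IsCoprime.pow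
    exact Nat.isCoprime_iff_coprime.2 ((Nat.coprime_primes (Finset.mem_filter.1 hp).2
      (Finset.mem_filter.1 hq).2).2 hpq)
  obtain ⟨a₀, ha₀⟩ := crt s (fun p => (p : ℤ) ^ (3 * n p + 14)) hco (fun p => (b p).1)
  obtain ⟨a₁, ha₁⟩ := crt s (fun p => (p : ℤ) ^ (3 * n p + 14)) hco (fun p => (b p).2)
  have hmem : ∀ p : ℕ, p.Prime → p ≤ W → p ∈ s := fun p hp hpW =>
    Finset.mem_filter.2 ⟨Finset.mem_Icc.2 ⟨hp.one_le, hpW⟩, hp⟩
  have hMs : ∀ p : ℕ, p.Prime → p ∣ M → p ≤ W := by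
    intro p hp hpM
    rw [hM] at hpM
    obtain ⟨q, hq, hpq⟩ := (Prime.dvd_finset_prod_iff hp.prime _).1 hpM
    have h3 := (Nat.prime_dvd_prime_iff_eq hp (Finset.mem_filter.1 hq).2).1 (hp.dvd_of_dvd_pow hpq)
    rw [h3]
    exact (Finset.mem_Icc.1 (Finset.mem_filter.1 hq).1).2
  have hM0 : M ≠ 0 := by
    rw [hM]
    exact Finset.prod_ne_zero_iff.2 fun q hq => pow_ne_zero _ (Finset.mem_filter.1 hq).2.ne_zero
  have hval : ∀ p : ℕ, p.Prime → p ≤ W → padicValNat p M = 3 * n p + 14 := by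
    intro p hp hpW
    haveI := Fact.mk hp
    have hps := hmem p hp hpW
    rw [hM, ← Finset.mul_prod_erase s _ hps, padicValNat.mul (pow_ne_zero _ hp.ne_zero)
      (Finset.prod_ne_zero_iff.2 fun q hq => pow_ne_zero _
        (Finset.mem_filter.1 (Finset.mem_of_mem_erase hq)).2.ne_zero), padicValNat.prime_pow]
    have : padicValNat p (∏ q ∈ s.erase p, q ^ (3 * n q + 14)) = 0 := by
      apply padicValNat.eq_zero_of_not_dvd
      intro hd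
      obtain ⟨q, hq, hpq⟩ := (Prime.dvd_finset_prod_iff hp.prime _).1 hd
      exact (Finset.ne_of_mem_erase hq) ((Nat.prime_dvd_prime_iff_eq hp
        (Finset.mem_filter.1 (Finset.mem_of_mem_erase hq)).2).1 (hp.dvd_of_dvd_pow hpq)).symm
    rw [this]
  have hdM : ∀ p : ℕ, p.Prime → p ≤ W → ((p : ℤ) ^ (3 * n p + 14)) ∣ (M : ℤ) := by
    intro p hp hpW
    have h3 : p ^ (3 * n p + 14) ∣ M := by
      rw [hM]
      exact Finset.dvd_prod_of_mem (fun p => p ^ (3 * n p + 14)) (hmem p hp hpW)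
    exact_mod_cast Int.natCast_dvd_natCast.2 h3
  refine ⟨a₀, a₁, ?_, ?_⟩
  · intro p hpS
    have hpW := hS p hpS
    obtain ⟨h3, -, -⟩ := hb' p hpW
    obtain ⟨h4, h5⟩ := h3 hpS
    have hbp : b' p = b (p : ℕ) := (hbb p p.2).symm
    rw [hbp] at h4 h5
    have hNn : N ≤ 3 * n p + 14 := by have := hN p; omega
    have gen : ∀ (Z : ℚ_[(p : ℕ)]) (u v : ℤ), ‖Z - (u : ℚ_[(p : ℕ)])‖ ≤ (((p : ℕ) : ℝ) ^ N)⁻¹ →
        (((p : ℕ) : ℤ) ^ (3 * n p + 14)) ∣ v - u →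
        ‖Z - (v : ℚ_[(p : ℕ)])‖ ≤ (((p : ℕ) : ℝ) ^ N)⁻¹ := by
      intro Z u v h6 h7
      have h8 : Z - (v : ℚ_[(p : ℕ)]) = (Z - u) + ((u - v : ℤ) : ℚ_[(p : ℕ)]) := by push_cast; ring
      rw [h8]
      refine (Padic.nonarchimedean _ _).trans (max_le h6 ?_)
      refine norm_int_le _ _ ?_
      have h9 : (((p : ℕ) : ℤ) ^ N) ∣ v - u := (pow_dvd_pow _ hNn).trans h7
      have h10 : u - v = -(v - u) := by ring
      rw [h10]
      exact (dvd_neg).2 h9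
    exact ⟨gen _ _ _ h4 (ha₀ p (hmem p p.2 hpW)), gen _ _ _ h5 (ha₁ p (hmem p p.2 hpW))⟩
  · intro γ hγ
    have hcong : ∀ p : ℕ, p.Prime → p ≤ W → ∀ k, ((p : ℤ) ^ (3 * n p + 14)) ∣
        fm (γ k) a₀ a₁ - fm (c k) (b p).1 (b p).2 := by
      intro p hp hpW k
      refine fm_modEq _ _ _ _ _ _ _ (fun j => ?_) (ha₀ p (hmem p hp hpW)) (ha₁ p (hmem p hp hpW))
      have h3 := (hdM p hp hpW).trans (hγ k j)
      have h4 : γ k j - c k j = -(c k j - γ k j) := by ring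
      rw [h4]
      exact (dvd_neg).2 h3
    constructor
    · intro p hp hpM
      have hpW := hMs p hp hpM
      rw [hval p hp hpW]
      refine ⟨by omega, fun k hk => ?_⟩
      obtain ⟨-, h3, -⟩ := hb' ⟨p, hp⟩ hpW
      rw [← hbb p hp] at h3
      apply h3 k
      have h4 : 3 * n p + 14 - 3 + 1 = 3 * n p + 12 := by omega
      rw [h4] at hk
      have h5 : (p : ℤ) ^ (3 * n p + 12) ∣ (p : ℤ) ^ (3 * n p + 14) := pow_dvd_pow _ (by omega)
      have h6 := dvd_sub hk (h5.trans (hcong p hp hpW k))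
      simpa using h6
    · intro p hpF hpM
      have hp := hpF.out
      have hpW := hMs p hp hpM
      obtain ⟨-, h3, h4⟩ := hb' ⟨p, hp⟩ hpW
      rw [← hbb p hp] at h3 h4
      have h4' : PS c (((b p).1 : ℤ) : ℚ_[p]) (((b p).2 : ℤ) : ℚ_[p]) := h4
      have h5 : ∀ k, ∃ z : ℚ_[p], z ≠ 0 ∧ ((fm (γ k) a₀ a₁ : ℤ) : ℚ_[p]) =
          ((fm (c k) (b p).1 (b p).2 : ℤ) : ℚ_[p]) * z ^ 2 := fun k =>
        sq_close _ _ (3 * n p) (h3 k) (hcong p hp hpW k)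
      choose z hz hz' using h5
      refine ps_tr c γ _ _ _ _ h4' z hz (fun _ => 1) (fun _ => one_ne_zero) fun k => ?_
      rw [fm_cast, fm_cast, hz' k]; ring

end Pool.Agent.N681.DC
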